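import Pool.Agent.V1173.Semi.Main

/-!
# MP_d2274e: semiconvex and semiconcave functions on cone-free convex sets

For the moduli `t ^ α`, `0 < α < 1` (cases (c) and (d)), the answer is positive for every
unbounded cone-free set.  For the conditions (a) and (b) it is negative: on the region above the
parabola, with the concave modulus `t / (1 + log (1 + t))`, every function which is semiconvex
and semiconcave is of class `C^{1,ω}`.
-/

open Set Filter Topology
open Pool.Agent.V1173.Semi

namespace Pool.Agent.Results.MP_d2274e_an.SemiconvexConeFree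

theorem result :
    -- cases (c) and (d)
    (∀ (n : ℕ) (G : Set (EuclideanSpace ℝ (Fin n))) (α : ℝ), 2 ≤ n → IsOpen G → Convex ℝ G →
      ¬ Bornology.IsBounded G → ConeFree G → 0 < α → α < 1 →
      ∃ f : EuclideanSpace ℝ (Fin n) → ℝ, Semiconvex G (fun t => t ^ α) f ∧
        Semiconcave G (fun t => t ^ α) f ∧ ¬ MemC1 G (fun t => t ^ α) f) ∧
    -- cases (a) and (b)
    (∃ (G : Set (EuclideanSpace ℝ (Fin 2))) (ω : ℝ → ℝ), IsOpen G ∧ Convex ℝ G ∧
      ¬ Bornology.IsBounded G ∧ ConeFree G ∧ IsModulus ω ∧ ConcaveOn ℝ (Ici 0) ω ∧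
      0 < liminf (fun t : ℝ => ((ω t / t : ℝ) : EReal)) (𝓝[>] 0) ∧
      liminf (fun t : ℝ => ((ω t / t : ℝ) : EReal)) atTop = 0 ∧
      ∀ f : EuclideanSpace ℝ (Fin 2) → ℝ, Semiconvex G ω f → Semiconcave G ω f →
        MemC1 G ω f) := by
  refine ⟨?_, ?_⟩
  · intro n G α _ hGo hG hub hC h0 h1
    exact positive hGo hG hub hC h0 h1
  · refine ⟨Par, om, par_open, par_convex, par_unbounded, par_coneFree, om_isModulus, om_concave,
      ?_, om_liminf_top, fun f h1 h2 => par_mem h1 h2⟩
    rw [om_liminf_zero]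
    exact zero_lt_one

end Pool.Agent.Results.MP_d2274e_an.SemiconvexConeFree
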